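import Pool.Agent.H26.FB.Main
import Pool.Graph.R_pool_sql_team_seeded_64922ed1.X312.CK.Main

/-!
# Chow-Künneth decompositions in the algebra of Frobenius and graph hypersurfaces

Let `k` be a finite field with `q` elements and let `C` be the category of Chow motives over `k` with
rational coefficients. The Frobenius correspondences give a natural endomorphism `F` of the identity
functor of `C`. It acts on all complexes in `C` (`onF F`), in particular on the weight complex `W(Y)`
(Gillet and Soulé) of every separated scheme `Y` of finite type over `k`.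

The *book* with `n` pages is the graph which consists of `n` cycles of length four (the pages) with one
common edge (the spine). Let `G` be a finite simple graph, `β` an embedding of the book with `n` pages
into `G` (`IsBook G β`), and `t_1, …, t_n` elements of `k`. The graph hypersurface
`X_{G, β, t} = bookS t G β` over `k` is given by the equation `det L = 0`, where `L` is the reduced
Laplacian of the cone over `G` with weights: all edges of the book have the weight `1`, except for one
edge of every page, which has the weight `t_i`; the weights of all other edges are variables.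
For the prime field `k = ℤ/p` the hypersurfaces `X_G = kirS k G` without parameters suffice: `det L = 0`
where the weights of all edges are variables.
-/

set_option autoImplicit false

open CategoryTheory Limits AlgebraicGeometry Polynomial Pool.Agent.Y116.UV Pool.Agent.Q282.UM
  Pool.Agent.Q282.UK Pool.Agent.H26.GF Pool.Agent.H26.FB

namespace Pool.Agent.Results.MP_1bf4cb_ag.GraphHypersurfaces

universe v u v' w

/-- The elements `π i` of the algebra `A` are orthogonal idempotents with sum `1`, and `π i` acts as the
identity on `H i` and as zero on `H j` for `j ≠ i`: a Chow-Künneth decomposition, if `A` is the algebra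
of correspondences of degree `0` of a variety and `cl i` its action on the `i`-th cohomology group. -/
def IsChowKunneth {d : ℕ} {A : Type v} [Ring A] {K : Type v'} [Field K]
    {H : Fin (2 * d + 1) → Type w} [∀ i, AddCommGroup (H i)] [∀ i, Module K (H i)]
    (cl : ∀ i, A →+* Module.End K (H i)) (π : Fin (2 * d + 1) → A) : Prop :=
  (∀ i, π i * π i = π i) ∧ (∀ i j, i ≠ j → π i * π j = 0) ∧ ∑ i, π i = 1 ∧
  (∀ i, cl i (π i) = 1) ∧ ∀ i j, i ≠ j → cl j (π i) = 0

/-- Chow-Künneth decompositions in `ℚ[F]` and polynomial equations for `F`. -/
theorem kunneth_iff (d : ℕ) {A : Type v} [Ring A] [Algebra ℚ A] {K : Type v'} [Field K]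
    {H : Fin (2 * d + 1) → Type w} [∀ i, AddCommGroup (H i)] [∀ i, Module K (H i)]
    (cl : ∀ i, A →+* Module.End K (H i)) (f : A) (P : Fin (2 * d + 1) → ℚ[X])
    (hP0 : ∀ i, P i ≠ 0) (hco : ∀ i j, i ≠ j → IsCoprime (P i) (P j))
    (hP : ∀ i, cl i (aeval f (P i)) = 0) (h2 : ∃ i j, i ≠ j ∧ Nontrivial (H i) ∧ Nontrivial (H j)) :
    (∃ S : ℚ[X], S ≠ 0 ∧ aeval f S = 0) ↔
      ∃ π : Fin (2 * d + 1) → A, (∀ i, π i ∈ Algebra.adjoin ℚ {f}) ∧ IsChowKunneth cl π := by
  constructor
  · rintro ⟨S, hS, h⟩
    rcases Pool.Agent.X312.CK.frob_law (0 : Fin (2 * d + 1)) cl f P hP0 hco hP with h | hl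
    · obtain ⟨π, h1, h2, h3, h4, h5, h6⟩ := h
      exact ⟨π, h1, h2, h3, h4, h5, h6⟩
    · exfalso
      rw [linearIndependent_iff'] at hl
      have h1 : ∑ n ∈ Finset.range (S.natDegree + 1), S.coeff n • (f ^ n * aeval f (∏ i, P i)) = 0 := by
        have h3 : aeval f S * aeval f (∏ i, P i) = 0 := by rw [h, zero_mul]
        rw [aeval_eq_sum_range, Finset.sum_mul] at h3
        simpa only [smul_mul_assoc] using h3
      have h4 := hl _ _ h1 S.natDegree (Finset.mem_range.mpr (Nat.lt_succ_self _))
      exact hS (leadingCoeff_eq_zero.mp h4)
  · rintro ⟨π, h1, h3, -, -, h5, h6⟩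
    obtain ⟨i, j, hij, hi, hj⟩ := h2
    have h7 := h1 i
    rw [Algebra.adjoin_singleton_eq_range_aeval] at h7
    obtain ⟨E, hE⟩ := h7
    have hE' : aeval f E = π i := hE
    refine ⟨E * E - E, ?_, ?_⟩
    · intro h0
      have h8 : E * (E - 1) = 0 := by rw [← h0]; ring
      rcases mul_eq_zero.mp h8 with h9 | h9
      · have h10 : π i = 0 := by rw [← hE', h9, map_zero]
        have h11 := h5 i
        rw [h10, map_zero] at h11
        exact zero_ne_one h11
      · have h10 : π i = 1 := by rw [← hE', sub_eq_zero.mp h9, map_one]
        have h11 := h6 i j hij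
        rw [h10, map_one] at h11
        exact one_ne_zero h11
    · rw [map_sub, map_mul, hE', h3 i, sub_self]

/-- **Frobenius equations, Chow-Künneth decompositions and graph hypersurfaces.** Let `C` be the
category of Chow motives over the finite field `k` with rational coefficients, `F` the Frobenius, and
`W(X)` the weight complex of the scheme `X` of finite type over `k`.

1. The Frobenius correspondence of every smooth projective `X` over `k` satisfies a polynomial equation
   modulo rational equivalence if and only if, for all graph hypersurfaces `Y = X_{G, β, t}` over `k`,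
   the Frobenius of the weight complex `W(Y)` satisfies a polynomial equation up to homotopy.
2. If `k = ℤ/p`, then it suffices that this is true for the graph hypersurfaces `X_G`.
3. Let `X` be smooth and projective over `k` of dimension `d`, with at least two nonzero cohomology
   groups `H i`, let `cl i` be the action of correspondences on `H i`, and `P i` in `ℚ[T]` a polynomial
   which annihilates Frobenius on `H i`, where the `P i` are pairwise coprime. Then `X` has a Chow-Künneth
   decomposition by projectors in `ℚ[F]` if and only if the Frobenius correspondence of `X` satisfies a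
   polynomial equation modulo rational equivalence. -/
theorem result {C : Type u} [Category.{v} C] [Preadditive C] [Linear ℚ C] [HasZeroObject C]
    [HasBinaryBiproducts C] [HasFiniteBiproducts C] (F : 𝟭 C ⟶ 𝟭 C) :
    (∀ (k : Type) [Field k] [Finite k] (D : Weights k C), IsWeights D → IsBounded D → IsFrob F D →
      ((∀ X : Sch k, IsSmoothProjective X → Equation (M := D.h X) (F.app (D.h X))) ↔
        ∀ (n : ℕ) (t : Fin n → k) (N : ℕ) (G : SimpleGraph (Fin N))
          (β : Option (Fin n) ⊕ Option (Fin n) → Fin N), IsBook G β →
          Equation (onF F (D.W (bookS t G β))))) ∧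
    (∀ (p : ℕ) [Fact p.Prime] (D : Weights (ZMod p) C), IsWeights D → IsBounded D → IsFrob F D →
      ((∀ X : Sch (ZMod p), IsSmoothProjective X → Equation (M := D.h X) (F.app (D.h X))) ↔
        ∀ (N : ℕ) (G : SimpleGraph (Fin N)),
          Equation (onF F (D.W (Pool.Agent.H21.GH.kirS (ZMod p) G))))) ∧
    ∀ (M : C) (d : ℕ) {K : Type v'} [Field K] {H : Fin (2 * d + 1) → Type w}
      [∀ i, AddCommGroup (H i)] [∀ i, Module K (H i)] (cl : ∀ i, End M →+* Module.End K (H i))
      (P : Fin (2 * d + 1) → ℚ[X]), (∀ i, P i ≠ 0) → (∀ i j, i ≠ j → IsCoprime (P i) (P j)) →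
      (∀ i, cl i (aeval (A := End M) (F.app M) (P i)) = 0) →
      (∃ i j, i ≠ j ∧ Nontrivial (H i) ∧ Nontrivial (H j)) →
      (Equation (M := M) (F.app M) ↔ ∃ π : Fin (2 * d + 1) → End M,
        (∀ i, π i ∈ Algebra.adjoin ℚ {(show End M from F.app M)}) ∧ IsChowKunneth cl π) := by
  refine ⟨?_, ?_, ?_⟩
  · intro k _ _ D hD hb hF
    exact equation_iff hD hb hF
  · intro p _ D hD hb hF
    exact equation_iff_prime hD hb hF
  · intro M d K _ H _ _ cl P h0 hco hP h2
    exact kunneth_iff d cl (show End M from F.app M) P h0 hco hP h2

end Pool.Agent.Results.MP_1bf4cb_ag.GraphHypersurfaces
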